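import Mathlib

/-!
# One-ND rule normal form for propagating programmed grammars

Every propagating programmed grammar (without appearance checking) is equivalent to a propagating
programmed grammar in which at most one rule has two or more successors. A sentential form
`a b l` with current label `q` is stored as `X [a,b,q] l`; the unique non-deterministic rule is
`X → X`, which selects one of finitely many deterministic chains of one or two rules.
-/

set_option autoImplicit false

namespace Pool.Agent.Results.MP_67c3d0_lc.OneND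

/-- A programmed grammar without appearance checking, with terminal alphabet `T`, nonterminals `N`
and labels `Ψ`. The rule with label `r` is `lhs r → rhs r` and its success field is `succ r`. -/
structure PG (T : Type) where
  N : Type
  Ψ : Type
  finN : Finite N
  finΨ : Finite Ψ
  lhs : Ψ → N
  rhs : Ψ → List (N ⊕ T)
  succ : Ψ → Set Ψ
  start : N

namespace PG

variable {T : Type} (G : PG T)

/-- One derivation step `(u, r) ⇒ (v, q)`. -/
def Step (x y : List (G.N ⊕ T) × G.Ψ) : Prop :=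
  ∃ u₁ u₂, x.1 = u₁ ++ Sum.inl (G.lhs x.2) :: u₂ ∧ y.1 = u₁ ++ G.rhs x.2 ++ u₂ ∧
    y.2 ∈ G.succ x.2

/-- The generated language. -/
def lang : Set (List T) :=
  {w | ∃ p q, Relation.ReflTransGen G.Step ([Sum.inl G.start], p) (w.map Sum.inr, q)}

/-- No rule is erasing. -/
def Propagating : Prop := ∀ r, G.rhs r ≠ []

/-- At most one rule has two or more successors. -/
def NormalForm : Prop := ∀ r r', 2 ≤ (G.succ r).ncard → 2 ≤ (G.succ r').ncard → r = r'

/-- `(u, q)` is reachable from the start symbol. -/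
def R (u : List (G.N ⊕ T)) (q : G.Ψ) : Prop :=
  ∃ p, Relation.ReflTransGen G.Step ([Sum.inl G.start], p) (u, q)

theorem R.step {G : PG T} {u v : List (G.N ⊕ T)} {q q' : G.Ψ} (h : G.R u q) (u₁ u₂ : List (G.N ⊕ T))
    (hu : u = u₁ ++ Sum.inl (G.lhs q) :: u₂) (hv : v = u₁ ++ G.rhs q ++ u₂)
    (hq : q' ∈ G.succ q) : G.R v q' := by
  obtain ⟨p, hp⟩ := h
  exact ⟨p, hp.tail ⟨u₁, u₂, hu, hv, hq⟩⟩

end PG

section

variable {T : Type} (G : PG T)

/-- New nonterminals: start symbol, `X`, composite symbols, old nonterminals. -/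
inductive NT
  | S
  | X
  | C (a b : G.N ⊕ T) (q : G.Ψ)
  | old (A : G.N)

/-- New labels. -/
inductive Lab
  | r0
  | m1 (a b : G.N ⊕ T) (q q' : G.Ψ)
  | m1' (q : G.Ψ)
  | m2 (b : G.N ⊕ T) (q q' : G.Ψ)
  | m3 (a : G.N ⊕ T) (q q' : G.Ψ)
  | f (s t : T) (q : G.Ψ)
  | f' (s t : T) (q : G.Ψ)
  | st (q q' : G.Ψ)
  | tm (a : T)

/-- The embedding of old symbols. -/
def emb : G.N ⊕ T → NT G ⊕ T
  | Sum.inl A => Sum.inl (NT.old A)
  | Sum.inr t => Sum.inr t

/-- The code of a word of length at least two, without the leading `X`. -/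
def tc : List (G.N ⊕ T) → G.Ψ → List (NT G ⊕ T)
  | a :: b :: l, q => Sum.inl (NT.C a b q) :: l.map (emb G)
  | _, _ => [Sum.inl NT.X]

/-- The code of a word of length at least two. -/
def code (u : List (G.N ⊕ T)) (q : G.Ψ) : List (NT G ⊕ T) := Sum.inl NT.X :: tc G u q

theorem tc_ne (u : List (G.N ⊕ T)) (q : G.Ψ) : tc G u q ≠ [] := by
  unfold tc
  split <;> simp

theorem tc_append (u l : List (G.N ⊕ T)) (q : G.Ψ) (h : 2 ≤ u.length) :
    tc G u q ++ l.map (emb G) = tc G (u ++ l) q := by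
  match u, h with
  | a :: b :: u, _ => simp [tc]

/-- Left-hand sides of the new grammar. -/
def lhs' : Lab G → NT G
  | .r0 => .X
  | .m1 a b q _ => .C a b q
  | .m1' q => .old (G.lhs q)
  | .m2 b q _ => .C (Sum.inl (G.lhs q)) b q
  | .m3 a q _ => .C a (Sum.inl (G.lhs q)) q
  | .f _ _ _ => .X
  | .f' s t q => .C (Sum.inr s) (Sum.inr t) q
  | .st _ _ => .S
  | .tm _ => .S

/-- Right-hand sides of the new grammar. -/
def rhs' : Lab G → List (NT G ⊕ T)
  | .r0 => [Sum.inl .X]
  | .m1 a b _ q' => [Sum.inl (.C a b q')]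
  | .m1' q => (G.rhs q).map (emb G)
  | .m2 b q q' => tc G (G.rhs q ++ [b]) q'
  | .m3 a q q' => tc G (a :: G.rhs q) q'
  | .f s _ _ => [Sum.inr s]
  | .f' _ t _ => [Sum.inr t]
  | .st q q' => code G (G.rhs q) q'
  | .tm a => [Sum.inr a]

/-- Success fields of the new grammar. -/
def succ' : Lab G → Set (Lab G)
  | .r0 => {l | (∃ a b q q', l = .m1 a b q q') ∨ (∃ b q q', l = .m2 b q q') ∨
      (∃ a q q', l = .m3 a q q') ∨ ∃ s t q, l = .f s t q}
  | .m1 _ _ q q' => {l | l = .m1' q ∧ q' ∈ G.succ q}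
  | .m1' _ => {.r0}
  | .m2 _ q q' => {l | l = .r0 ∧ q' ∈ G.succ q}
  | .m3 _ q q' => {l | l = .r0 ∧ q' ∈ G.succ q}
  | .f s t q => {.f' s t q}
  | .f' _ _ _ => {.r0}
  | .st q q' => {l | l = .r0 ∧ q' ∈ G.succ q ∧ 2 ≤ (G.rhs q).length ∧
      G.R [Sum.inl (G.lhs q)] q}
  | .tm a => {l | l = .r0 ∧ ∃ q, G.R [Sum.inr a] q}

/-- The new grammar. -/
def G' [Finite T] : PG T where
  N := NT G
  Ψ := Lab G
  finN := by
    have := G.finN
    have := G.finΨ
    exact Finite.of_equiv _ (proxy_equiv% (NT G))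
  finΨ := by
    have := G.finN
    have := G.finΨ
    exact Finite.of_equiv _ (proxy_equiv% (Lab G))
  lhs := lhs' G
  rhs := rhs' G
  succ := succ' G
  start := .S

/-- Steps of the new grammar. -/
def Step' (x y : List (NT G ⊕ T) × Lab G) : Prop :=
  ∃ u₁ u₂, x.1 = u₁ ++ Sum.inl (lhs' G x.2) :: u₂ ∧ y.1 = u₁ ++ rhs' G x.2 ++ u₂ ∧
    y.2 ∈ succ' G x.2

theorem propagating [Finite T] (hG : G.Propagating) : (G' G).Propagating := by
  intro r
  cases r with
  | m1' q =>
    intro h
    exact hG q (List.map_eq_nil_iff.1 h)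
  | m2 b q q' => exact tc_ne G _ _
  | m3 a q q' => exact tc_ne G _ _
  | st q q' => exact List.cons_ne_nil _ _
  | _ => exact List.cons_ne_nil _ _

theorem ncard_le_of_subset {α : Type} (s : Set α) (a : α) (h : ∀ x ∈ s, x = a) :
    ¬ 2 ≤ s.ncard := by
  have h1 : s.ncard ≤ ({a} : Set α).ncard :=
    Set.ncard_le_ncard (fun x hx => h x hx) (Set.finite_singleton a)
  rw [Set.ncard_singleton] at h1
  omega

theorem normalForm [Finite T] : (G' G).NormalForm := by
  have key : ∀ r : Lab G, r ≠ Lab.r0 → ¬ 2 ≤ ((G' G).succ r).ncard := by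
    intro r hr
    cases r with
    | r0 => exact absurd rfl hr
    | m1 a b q q' => exact ncard_le_of_subset _ (Lab.m1' q) fun x hx => hx.1
    | m1' q => exact ncard_le_of_subset _ Lab.r0 fun x hx => hx
    | m2 b q q' => exact ncard_le_of_subset _ Lab.r0 fun x hx => hx.1
    | m3 a q q' => exact ncard_le_of_subset _ Lab.r0 fun x hx => hx.1
    | f s t q => exact ncard_le_of_subset _ (Lab.f' s t q) fun x hx => hx
    | f' s t q => exact ncard_le_of_subset _ Lab.r0 fun x hx => hx
    | st q q' => exact ncard_le_of_subset _ Lab.r0 fun x hx => hx.1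
    | tm a => exact ncard_le_of_subset _ Lab.r0 fun x hx => hx.1
  intro r r' h h'
  have h1 : r = Lab.r0 := by
    by_contra hr
    exact key r hr h
  have h2 : r' = Lab.r0 := by
    by_contra hr
    exact key r' hr h'
  rw [h1, h2]

/-! ### Symbols in codes -/

theorem X_not_mem (l : List (G.N ⊕ T)) : Sum.inl NT.X ∉ l.map (emb G) := by
  intro h
  obtain ⟨x, _, hx⟩ := List.mem_map.1 h
  cases x <;> simp [emb] at hx

theorem S_not_mem (l : List (G.N ⊕ T)) : Sum.inl NT.S ∉ l.map (emb G) := by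
  intro h
  obtain ⟨x, _, hx⟩ := List.mem_map.1 h
  cases x <;> simp [emb] at hx

theorem C_not_mem (l : List (G.N ⊕ T)) (a b : G.N ⊕ T) (q : G.Ψ) :
    Sum.inl (NT.C a b q) ∉ l.map (emb G) := by
  intro h
  obtain ⟨x, _, hx⟩ := List.mem_map.1 h
  cases x <;> simp [emb] at hx

theorem emb_injective : Function.Injective (emb G) := by
  intro x y h
  cases x <;> cases y <;> simp [emb] at h <;> simp [h]

theorem old_split (l : List (G.N ⊕ T)) (A : G.N) (u₁ u₂ : List (NT G ⊕ T))
    (h : l.map (emb G) = u₁ ++ Sum.inl (NT.old A) :: u₂) :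
    ∃ l₁ l₂, l = l₁ ++ Sum.inl A :: l₂ ∧ u₁ = l₁.map (emb G) ∧ u₂ = l₂.map (emb G) := by
  obtain ⟨l₁, l', hl, h1, h2⟩ := List.map_eq_append_iff.1 h
  obtain ⟨x, l₂, hl', h3, h4⟩ := List.map_eq_cons_iff.1 h2
  refine ⟨l₁, l₂, ?_, h1.symm, h4.symm⟩
  have hx : x = Sum.inl A := by
    cases x <;> simp [emb] at h3
    rw [h3]
  rw [hl, hl', hx]

/-- If `y` is not `x₀` and does not occur in the tail, the only occurrence is at index one. -/
theorem split_one {α : Type} {x₀ x₁ y : α} {l u₁ u₂ : List α}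
    (h : x₀ :: x₁ :: l = u₁ ++ y :: u₂) (h0 : x₀ ≠ y) (hl : y ∉ l) :
    x₁ = y ∧ u₁ = [x₀] ∧ u₂ = l := by
  match u₁, h with
  | [], h => exact absurd (List.cons.inj h).1 h0
  | [z], h =>
    simp only [List.cons_append, List.nil_append, List.cons.injEq] at h
    exact ⟨h.2.1, by rw [h.1], h.2.2.symm⟩
  | z :: z' :: u, h =>
    simp only [List.cons_append, List.cons.injEq] at h
    exact absurd (h.2.2 ▸ (by simp : y ∈ u ++ y :: u₂)) hl

theorem split_zero {α : Type} {x₀ y : α} {l u₁ u₂ : List α}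
    (h : x₀ :: l = u₁ ++ y :: u₂) (hl : y ∉ l) :
    x₀ = y ∧ u₁ = [] ∧ u₂ = l := by
  match u₁, h with
  | [], h =>
    simp only [List.nil_append, List.cons.injEq] at h
    exact ⟨h.1, rfl, h.2.symm⟩
  | z :: u, h =>
    simp only [List.cons_append, List.cons.injEq] at h
    exact absurd (h.2 ▸ (by simp : y ∈ u ++ y :: u₂)) hl

/-- The invariant of derivations of the new grammar. -/
inductive Inv : List (NT G ⊕ T) × Lab G → Prop
  | start (p : Lab G) : Inv ([Sum.inl NT.S], p)
  | main (a b : G.N ⊕ T) (l : List (G.N ⊕ T)) (q : G.Ψ) (p : Lab G)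
      (h : G.R (a :: b :: l) q) (h1 : ∀ q₀, p ≠ Lab.m1' q₀) (h2 : ∀ s t q₀, p ≠ Lab.f' s t q₀) :
      Inv (code G (a :: b :: l) q, p)
  | mid (a b : G.N ⊕ T) (l : List (G.N ⊕ T)) (q q' : G.Ψ)
      (h : G.R (a :: b :: l) q) (h1 : q' ∈ G.succ q) :
      Inv (code G (a :: b :: l) q', Lab.m1' q)
  | fin (a b : G.N ⊕ T) (l : List (G.N ⊕ T)) (s t : T) (q q₁ : G.Ψ)
      (h : G.R (a :: b :: l) q) :
      Inv (Sum.inr s :: Sum.inl (NT.C a b q) :: l.map (emb G), Lab.f' s t q₁)
  | done (u : List (G.N ⊕ T)) (q : G.Ψ) (h : G.R u q) : Inv (u.map (emb G), Lab.r0)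

theorem Inv.step (hG : G.Propagating) {x y : List (NT G ⊕ T) × Lab G} (h : Inv G x) (hs : Step' G x y) :
    Inv G y := by
  obtain ⟨u₁, u₂, hx, hy, hq⟩ := hs
  obtain ⟨y1, y2⟩ := y
  simp only at hy hq
  cases h with
  | start p =>
    simp only at hx hy hq
    have h1 := split_zero hx (by simp)
    cases p with
    | st q q' =>
      obtain ⟨hy2, hq', hlen, hR⟩ := hq
      have hR' : G.R (G.rhs q) q' := hR.step [] [] rfl (by simp) hq'
      have hy1 : y1 = code G (G.rhs q) q' := by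
        rw [hy, h1.2.1, h1.2.2, List.nil_append, List.append_nil]
        rfl
      rw [hy1, hy2]
      match hw : G.rhs q, hlen, hR' with
      | a :: b :: l, _, hR' =>
        exact Inv.main a b l q' _ hR' (fun _ => by simp) (fun _ _ _ => by simp)
    | tm a =>
      obtain ⟨hy2, q, hR⟩ := hq
      rw [hy, hy2, h1.2.1, h1.2.2]
      exact Inv.done [Sum.inr a] q hR
    | _ => exact absurd h1.1 (by simp [lhs'])
  | main a b l q p hR hp1 hp2 =>
    simp only at hx hy hq
    have hS : Sum.inl NT.S ∉ code G (a :: b :: l) q := by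
      simp only [code, tc, List.mem_cons, not_or]
      exact ⟨by simp, by simp, S_not_mem G l⟩
    have hX : Sum.inl NT.X ∉ tc G (a :: b :: l) q := by
      simp only [tc, List.mem_cons, not_or]
      exact ⟨by simp, X_not_mem G l⟩
    cases p with
    | r0 =>
      have h1 := split_zero (y := Sum.inl NT.X) (l := tc G (a :: b :: l) q) hx hX
      rw [hy, h1.2.1, h1.2.2]
      refine Inv.main a b l q y2 hR ?_ ?_
      · rcases hq with ⟨_, _, _, _, rfl⟩ | ⟨_, _, _, rfl⟩ | ⟨_, _, _, rfl⟩ | ⟨_, _, _, rfl⟩ <;>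
          simp
      · rcases hq with ⟨_, _, _, _, rfl⟩ | ⟨_, _, _, rfl⟩ | ⟨_, _, _, rfl⟩ | ⟨_, _, _, rfl⟩ <;>
          simp
    | m1 a' b' q₁ q₁' =>
      have h1 := split_one (x₀ := Sum.inl NT.X) (y := Sum.inl (NT.C a' b' q₁)) hx (by simp)
        (C_not_mem G l a' b' q₁)
      obtain ⟨h2, h3, h4⟩ := h1
      simp only [Sum.inl.injEq, NT.C.injEq] at h2
      obtain ⟨rfl, rfl, rfl⟩ := h2
      obtain ⟨hy2, hq'⟩ := hq
      rw [hy, hy2, h3, h4]
      exact Inv.mid a b l q q₁' hR hq'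
    | m2 b' q₁ q₁' =>
      have h1 := split_one (x₀ := Sum.inl NT.X) (y := Sum.inl (NT.C (Sum.inl (G.lhs q₁)) b' q₁))
        hx (by simp) (C_not_mem G l _ _ q₁)
      obtain ⟨h2, h3, h4⟩ := h1
      simp only [Sum.inl.injEq, NT.C.injEq] at h2
      obtain ⟨rfl, rfl, rfl⟩ := h2
      obtain ⟨hy2, hq'⟩ := hq
      have hne := hG q
      have hlen : 2 ≤ (G.rhs q ++ [b]).length := by
        have : 0 < (G.rhs q).length := List.length_pos_iff.2 hne
        simp; omega
      have hy1 : y1 = code G ((G.rhs q ++ [b]) ++ l) q₁' := by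
        rw [hy, h3, h4]
        show [Sum.inl NT.X] ++ tc G (G.rhs q ++ [b]) q₁' ++ l.map (emb G) = _
        rw [List.append_assoc, tc_append G _ _ _ hlen]
        rfl
      have hR' : G.R ((G.rhs q ++ [b]) ++ l) q₁' :=
        hR.step [] (b :: l) rfl (by simp) hq'
      rw [hy1, hy2]
      match hw : (G.rhs q ++ [b]), hlen, hR' with
      | c :: d :: l', _, hR' =>
        exact Inv.main c d (l' ++ l) q₁' _ hR' (fun _ => by simp) (fun _ _ _ => by simp)
    | m3 a' q₁ q₁' =>
      have h1 := split_one (x₀ := Sum.inl NT.X) (y := Sum.inl (NT.C a' (Sum.inl (G.lhs q₁)) q₁))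
        hx (by simp) (C_not_mem G l _ _ q₁)
      obtain ⟨h2, h3, h4⟩ := h1
      simp only [Sum.inl.injEq, NT.C.injEq] at h2
      obtain ⟨rfl, rfl, rfl⟩ := h2
      obtain ⟨hy2, hq'⟩ := hq
      have hne := hG q
      have hlen : 2 ≤ (a :: G.rhs q).length := by
        have : 0 < (G.rhs q).length := List.length_pos_iff.2 hne
        simp; omega
      have hy1 : y1 = code G ((a :: G.rhs q) ++ l) q₁' := by
        rw [hy, h3, h4]
        show [Sum.inl NT.X] ++ tc G (a :: G.rhs q) q₁' ++ l.map (emb G) = _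
        rw [List.append_assoc, tc_append G _ _ _ hlen]
        rfl
      have hR' : G.R ((a :: G.rhs q) ++ l) q₁' :=
        hR.step [a] l rfl (by simp) hq'
      rw [hy1, hy2]
      match hw : (a :: G.rhs q), hlen, hR' with
      | c :: d :: l', _, hR' =>
        exact Inv.main c d (l' ++ l) q₁' _ hR' (fun _ => by simp) (fun _ _ _ => by simp)
    | m1' q₁ => exact absurd rfl (hp1 q₁)
    | f s t q₁ =>
      have h1 := split_zero (y := Sum.inl NT.X) (l := tc G (a :: b :: l) q) hx hX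
      have hy2 : y2 = Lab.f' s t q₁ := hq
      rw [hy, h1.2.1, h1.2.2, hy2]
      exact Inv.fin a b l s t q q₁ hR
    | f' s t q₁ => exact absurd rfl (hp2 s t q₁)
    | st q₁ q₁' => exact absurd (hx ▸ (by simp [lhs'] :
        Sum.inl NT.S ∈ u₁ ++ Sum.inl (lhs' G (Lab.st q₁ q₁')) :: u₂)) hS
    | tm a' => exact absurd (hx ▸ (by simp [lhs'] :
        Sum.inl NT.S ∈ u₁ ++ Sum.inl (lhs' G (Lab.tm a')) :: u₂)) hS
  | mid a b l q q' hR hq' =>
    simp only at hx hy hq
    have hy2 : y2 = Lab.r0 := hq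
    have hx' : Sum.inl NT.X :: Sum.inl (NT.C a b q') :: l.map (emb G) =
        u₁ ++ Sum.inl (NT.old (G.lhs q)) :: u₂ := hx
    match u₁, hx', hy with
    | [], hx', _ => simp at hx'
    | [_], hx', _ => simp at hx'
    | c :: d :: u, hx', hy =>
      simp only [List.cons_append, List.cons.injEq] at hx'
      obtain ⟨hc, hd, hl⟩ := hx'
      obtain ⟨l₁, l₂, h1, h2, h3⟩ := old_split G l (G.lhs q) u u₂ hl
      have hy1 : y1 = code G (a :: b :: (l₁ ++ G.rhs q ++ l₂)) q' := by
        rw [hy, ← hc, ← hd, h2, h3]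
        simp [code, tc, rhs']
      rw [hy1, hy2]
      refine Inv.main a b _ q' _ ?_ (fun _ => by simp) (fun _ _ _ => by simp)
      exact hR.step (a :: b :: l₁) l₂ (by rw [h1]; rfl) (by simp) hq'
  | fin a b l s t q q₁ hR =>
    simp only at hx hy hq
    have hy2 : y2 = Lab.r0 := hq
    have h1 := split_one (x₀ := Sum.inr s)
      (y := Sum.inl (NT.C (Sum.inr s) (Sum.inr t) q₁)) hx (by simp) (C_not_mem G l _ _ q₁)
    obtain ⟨h2, h3, h4⟩ := h1
    simp only [Sum.inl.injEq, NT.C.injEq] at h2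
    obtain ⟨rfl, rfl, rfl⟩ := h2
    rw [hy, hy2, h3, h4]
    exact Inv.done (Sum.inr s :: Sum.inr t :: l) q hR
  | done u q hR =>
    simp only at hx hy hq
    exact absurd (hx ▸ (by simp [lhs'] :
      Sum.inl NT.X ∈ u₁ ++ Sum.inl (lhs' G Lab.r0) :: u₂)) (X_not_mem G u)

theorem R.ne_nil (hG : G.Propagating) {u : List (G.N ⊕ T)} {q : G.Ψ} (h : G.R u q) :
    u ≠ [] := by
  obtain ⟨p, hp⟩ := h
  have key : ∀ x : List (G.N ⊕ T) × G.Ψ,
      Relation.ReflTransGen G.Step ([Sum.inl G.start], p) x → x.1 ≠ [] := by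
    intro x hx
    induction hx with
    | refl => exact List.cons_ne_nil _ _
    | tail _ hs _ =>
      obtain ⟨u₁, u₂, _, hy, _⟩ := hs
      rw [hy]
      intro h
      exact hG _ (List.append_eq_nil_iff.1 (List.append_eq_nil_iff.1 h).1).2
  exact key _ hp

/-- Completeness: reachable sentential forms of length at least two are reachable in coded form. -/
theorem complete (hG : G.Propagating) {u : List (G.N ⊕ T)} {q : G.Ψ} (h : G.R u q)
    (hu : 2 ≤ u.length) :
    ∃ p, Relation.ReflTransGen (Step' G) ([Sum.inl NT.S], p) (code G u q, Lab.r0) := by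
  obtain ⟨p, hp⟩ := h
  have key : ∀ x : List (G.N ⊕ T) × G.Ψ,
      Relation.ReflTransGen G.Step ([Sum.inl G.start], p) x → 2 ≤ x.1.length →
      ∃ p, Relation.ReflTransGen (Step' G) ([Sum.inl NT.S], p) (code G x.1 x.2, Lab.r0) := by
    intro x hx
    induction hx with
    | refl => intro h; simp at h
    | @tail x y hx hs ih =>
      intro hy2
      obtain ⟨u₁, u₂, hx1, hy1, hq⟩ := hs
      obtain ⟨w, q⟩ := x
      obtain ⟨v, q'⟩ := y
      simp only at hx1 hy1 hq hy2 ih ⊢
      have hne : 0 < (G.rhs q).length := List.length_pos_iff.2 (hG q)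
      match u₁, u₂, hx1, hy1 with
      | [], [], hx1, hy1 =>
        -- the sentential form was a single symbol
        have hv : v = G.rhs q := by rw [hy1]; simp
        rw [hx1] at hx
        refine ⟨Lab.st q q', Relation.ReflTransGen.single ⟨[], [], rfl, ?_, ?_⟩⟩
        · simp [rhs', hv]
        · exact ⟨rfl, hq, hv ▸ hy2, p, hx⟩
      | [], b :: l, hx1, hy1 =>
        obtain ⟨p', hp'⟩ := ih (by rw [hx1]; simp)
        refine ⟨p', (hp'.tail (b := (code G w q, Lab.r0)) (c := (code G w q, Lab.m2 b q q'))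
          ⟨[], tc G w q, rfl, by simp [rhs', code], Or.inr (Or.inl ⟨_, _, _, rfl⟩)⟩).tail
          ⟨[Sum.inl NT.X], l.map (emb G), ?_, ?_, rfl, hq⟩⟩
        · rw [hx1]; rfl
        · have h1 : v = (G.rhs q ++ [b]) ++ l := by rw [hy1]; simp
          show code G v q' = [Sum.inl NT.X] ++ tc G (G.rhs q ++ [b]) q' ++ l.map (emb G)
          rw [List.append_assoc, tc_append G _ _ _ (by simp; omega), h1]
          rfl
      | [a], l, hx1, hy1 =>
        obtain ⟨p', hp'⟩ := ih (by rw [hx1]; simp)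
        refine ⟨p', (hp'.tail (b := (code G w q, Lab.r0)) (c := (code G w q, Lab.m3 a q q'))
          ⟨[], tc G w q, rfl, by simp [rhs', code], Or.inr (Or.inr (Or.inl ⟨_, _, _, rfl⟩))⟩).tail
          ⟨[Sum.inl NT.X], l.map (emb G), ?_, ?_, rfl, hq⟩⟩
        · rw [hx1]; rfl
        · have h1 : v = (a :: G.rhs q) ++ l := by rw [hy1]; simp
          show code G v q' = [Sum.inl NT.X] ++ tc G (a :: G.rhs q) q' ++ l.map (emb G)
          rw [List.append_assoc, tc_append G _ _ _ (by simp; omega), h1]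
          rfl
      | a :: b :: l₁, l₂, hx1, hy1 =>
        obtain ⟨p', hp'⟩ := ih (by rw [hx1]; simp)
        have h1 : w = a :: b :: (l₁ ++ Sum.inl (G.lhs q) :: l₂) := hx1
        have h2 : v = a :: b :: (l₁ ++ G.rhs q ++ l₂) := by rw [hy1]; simp
        refine ⟨p', ((hp'.tail (b := (code G w q, Lab.r0)) (c := (code G w q, Lab.m1 a b q q'))
          ⟨[], tc G w q, rfl, by simp [rhs', code], Or.inl ⟨_, _, _, _, rfl⟩⟩).tail
          (c := (code G w q', Lab.m1' q))
          ⟨[Sum.inl NT.X], (l₁ ++ Sum.inl (G.lhs q) :: l₂).map (emb G), ?_, ?_, rfl, hq⟩).tail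
          ⟨Sum.inl NT.X :: Sum.inl (NT.C a b q') :: l₁.map (emb G), l₂.map (emb G), ?_, ?_, rfl⟩⟩
        · rw [h1]; rfl
        · rw [h1]; rfl
        · rw [h1]; simp [code, tc, lhs', emb]
        · rw [h2]; simp [code, tc, rhs']
  exact key _ hp hu

theorem lang_eq [Finite T] (hG : G.Propagating) : (G' G).lang = G.lang := by
  ext w
  constructor
  · rintro ⟨p, q, h⟩
    have h0 : Relation.ReflTransGen (Step' G) ([Sum.inl NT.S], p) (w.map Sum.inr, q) := h
    have hInv : ∀ x : List (NT G ⊕ T) × Lab G,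
        Relation.ReflTransGen (Step' G) ([Sum.inl NT.S], p) x → Inv G x := by
      intro x hx
      induction hx with
      | refl => exact Inv.start p
      | tail _ hs ih => exact ih.step G hG hs
    have h1 := hInv _ h0
    have hno : ∀ B : NT G, Sum.inl B ∉ w.map (Sum.inr : T → NT G ⊕ T) := by
      intro B hB
      obtain ⟨_, _, h⟩ := List.mem_map.1 hB
      simp at h
    generalize hx : ((w.map Sum.inr, q) : List (NT G ⊕ T) × Lab G) = x at h1
    cases h1 with
    | start p =>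
      have h2 : w.map Sum.inr = [Sum.inl NT.S] := (Prod.ext_iff.1 hx).1
      exact absurd (h2 ▸ (by simp : Sum.inl NT.S ∈ [Sum.inl NT.S])) (hno NT.S)
    | main a b l q₁ p hR _ _ =>
      have h2 : w.map Sum.inr = code G (a :: b :: l) q₁ := (Prod.ext_iff.1 hx).1
      exact absurd (h2 ▸ (by simp [code] : Sum.inl NT.X ∈ code G (a :: b :: l) q₁)) (hno NT.X)
    | mid a b l q₁ q₂ hR _ =>
      have h2 : w.map Sum.inr = code G (a :: b :: l) q₂ := (Prod.ext_iff.1 hx).1
      exact absurd (h2 ▸ (by simp [code] : Sum.inl NT.X ∈ code G (a :: b :: l) q₂)) (hno NT.X)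
    | fin a b l s t q₁ q₂ hR =>
      have h2 : w.map Sum.inr = Sum.inr s :: Sum.inl (NT.C a b q₁) :: l.map (emb G) :=
        (Prod.ext_iff.1 hx).1
      exact absurd (h2 ▸ (by simp :
        Sum.inl (NT.C a b q₁) ∈ Sum.inr s :: Sum.inl (NT.C a b q₁) :: l.map (emb G)))
        (hno (NT.C a b q₁))
    | done u q₁ hR =>
      have h2 : w.map Sum.inr = u.map (emb G) := (Prod.ext_iff.1 hx).1
      have h3 : (w.map (Sum.inr : T → G.N ⊕ T)).map (emb G) = u.map (emb G) := by
        rw [← h2, List.map_map]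
        rfl
      have h4 := List.map_injective_iff.2 (emb_injective G) h3
      rw [← h4] at hR
      obtain ⟨p', hp'⟩ := hR
      exact ⟨p', q₁, hp'⟩
  · rintro ⟨p, q, h⟩
    have hR : G.R (w.map Sum.inr) q := ⟨p, h⟩
    match w, hR with
    | [], hR => exact absurd rfl (R.ne_nil G hG hR)
    | [a], hR =>
      refine ⟨Lab.tm a, Lab.r0, Relation.ReflTransGen.single ?_⟩
      exact ⟨[], [], rfl, rfl, rfl, q, hR⟩
    | s :: t :: l, hR =>
      obtain ⟨p', hp'⟩ := complete G hG hR (by simp)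
      have h5 : Relation.ReflTransGen (Step' G) ([Sum.inl NT.S], p')
          ((s :: t :: l).map Sum.inr, Lab.r0) := by
        refine ((hp'.tail (c := (code G ((s :: t :: l).map Sum.inr) q, Lab.f s t q))
          ⟨[], tc G ((s :: t :: l).map Sum.inr) q, rfl, by simp [rhs', code],
            Or.inr (Or.inr (Or.inr ⟨_, _, _, rfl⟩))⟩).tail
          (c := (Sum.inr s :: tc G ((s :: t :: l).map Sum.inr) q, Lab.f' s t q))
          ⟨[], tc G ((s :: t :: l).map Sum.inr) q, rfl, by simp [rhs'], rfl⟩).tail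
          ⟨[Sum.inr s], (l.map Sum.inr).map (emb G), ?_, ?_, rfl⟩
        · simp [tc, lhs']
        · simp only [List.map_cons, List.map_map, rhs', List.cons_append, List.nil_append]
          rfl
      exact ⟨p', Lab.r0, h5⟩

end

/-- **Q1, affirmative.** Every propagating programmed grammar has an equivalent propagating
programmed grammar in one-ND rule normal form. -/
theorem result (T : Type) [Finite T] (G : PG T) (hG : G.Propagating) :
    ∃ G' : PG T, G'.Propagating ∧ G'.NormalForm ∧ G'.lang = G.lang :=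
  ⟨G' G, propagating G hG, normalForm G, lang_eq G hG⟩

end Pool.Agent.Results.MP_67c3d0_lc.OneND
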